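import Pool.Agent.helper62.VQ.SpecE

set_option autoImplicit false

open scoped MatrixGroups ContDiff Topology UpperHalfPlane
open UpperHalfPlane MeasureTheory Filter Set

namespace Pool.Agent.VQE

open Pool.Agent.RS

noncomputable section

theorem VNA_iter {Ω : Type} [MeasurableSpace Ω] (μ : Measure Ω) (T : Ω → Ω)
    (hT : MeasurePreserving T μ μ) (H : Ω → ℝ) (hH : MemLp H 2 μ) (j : ℕ) :
    ∃ hm : MemLp (fun w => H (T^[j] w)) 2 μ,
      (Lp.compMeasurePreserving T hT)^[j] (hH.toLp H) = hm.toLp _ := by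
  induction j with
  | zero => exact ⟨hH, rfl⟩
  | succ j ih =>
    obtain ⟨hm, h⟩ := ih
    refine ⟨?_, ?_⟩
    · have := hm.comp_measurePreserving hT
      have e : (fun w => H (T^[j] w)) ∘ T = fun w => H (T^[j + 1] w) := by
        funext w
        rw [Function.comp_apply, Function.iterate_succ_apply]
      rwa [e] at this
    · rw [Function.iterate_succ_apply', h, Lp.toLp_compMeasurePreserving]
      rfl

theorem VNA_sum {Ω : Type} [MeasurableSpace Ω] (μ : Measure Ω) (T : Ω → Ω)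
    (hT : MeasurePreserving T μ μ) (H : Ω → ℝ) (hH : MemLp H 2 μ) (n : ℕ) :
    ∃ hm : MemLp (fun w => ∑ j ∈ Finset.range n, H (T^[j] w)) 2 μ,
      ∑ j ∈ Finset.range n, (Lp.compMeasurePreserving T hT)^[j] (hH.toLp H) = hm.toLp _ := by
  induction n with
  | zero =>
    refine ⟨?_, ?_⟩
    · simp
    · simp only [Finset.range_zero, Finset.sum_empty]
      rfl
  | succ n ih =>
    obtain ⟨hm, h⟩ := ih
    obtain ⟨hm', h'⟩ := VNA_iter μ T hT H hH n
    have e : (fun w => ∑ j ∈ Finset.range (n + 1), H (T^[j] w)) =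
        (fun w => ∑ j ∈ Finset.range n, H (T^[j] w)) + fun w => H (T^[n] w) := by
      funext w
      rw [Pi.add_apply, Finset.sum_range_succ]
    refine ⟨?_, ?_⟩
    · rw [e]
      exact hm.add hm'
    · rw [Finset.sum_range_succ, h, h', ← MemLp.toLp_add]
      exact MemLp.toLp_congr _ _ (ae_of_all _ fun w => (congrFun e w).symm)

theorem VNA_av {Ω : Type} [MeasurableSpace Ω] (μ : Measure Ω) (T : Ω → Ω)
    (hT : MeasurePreserving T μ μ) (H : Ω → ℝ) (hH : MemLp H 2 μ) (n : ℕ) :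
    (birkhoffAverage ℝ (Lp.compMeasurePreserving T hT) id n (hH.toLp H) : Lp ℝ 2 μ) =ᵐ[μ]
      fun w => (n : ℝ)⁻¹ * ∑ j ∈ Finset.range n, H (T^[j] w) := by
  obtain ⟨hm, h⟩ := VNA_sum μ T hT H hH n
  have e : (birkhoffAverage ℝ (Lp.compMeasurePreserving T hT) id n (hH.toLp H) : Lp ℝ 2 μ) =
      (n : ℝ)⁻¹ • hm.toLp _ := by
    rw [← h]
    rfl
  rw [e]
  filter_upwards [Lp.coeFn_smul ((n : ℝ)⁻¹) (hm.toLp _), hm.coeFn_toLp] with w h1 h2
  rw [h1, Pi.smul_apply, h2, smul_eq_mul]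

theorem VNA_proof : VNA_stmt := by
  intro Ω _ μ _ T S H hT hS hST hTS hHm hH1
  have hH : MemLp H 2 μ :=
    MemLp.of_bound hHm.aestronglyMeasurable 1 (ae_of_all _ fun w => by
      rw [Real.norm_eq_abs]; exact hH1 w)
  let U : Lp ℝ 2 μ →L[ℝ] Lp ℝ 2 μ := (Lp.compMeasurePreservingₗᵢ ℝ T hT).toContinuousLinearMap
  let W : Lp ℝ 2 μ →L[ℝ] Lp ℝ 2 μ := (Lp.compMeasurePreservingₗᵢ ℝ S hS).toContinuousLinearMap
  have hU : ∀ f, U f = Lp.compMeasurePreserving T hT f := fun f => rfl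
  have hW : ∀ f, W f = Lp.compMeasurePreserving S hS f := fun f => rfl
  have hUn : ‖U‖ ≤ 1 := LinearIsometry.norm_toContinuousLinearMap_le _
  have hWn : ‖W‖ ≤ 1 := LinearIsometry.norm_toContinuousLinearMap_le _
  have hUW : ∀ f, U (W f) = f := by
    intro f
    rw [hU, hW]
    apply Lp.ext
    have h1 := Lp.coeFn_compMeasurePreserving (Lp.compMeasurePreserving S hS f) hT
    have h2 := hT.quasiMeasurePreserving.ae (Lp.coeFn_compMeasurePreserving f hS)
    filter_upwards [h1, h2, hST] with w e1 e2 e3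
    rw [e1, Function.comp_apply, e2, Function.comp_apply, e3]
  have hWU : ∀ f, W (U f) = f := by
    intro f
    rw [hU, hW]
    apply Lp.ext
    have h1 := Lp.coeFn_compMeasurePreserving (Lp.compMeasurePreserving T hT f) hS
    have h2 := hS.quasiMeasurePreserving.ae (Lp.coeFn_compMeasurePreserving f hT)
    filter_upwards [h1, h2, hTS] with w e1 e2 e3
    rw [e1, Function.comp_apply, e2, Function.comp_apply, e3]
  have hloc : W.eqLocus (1 : Lp ℝ 2 μ →L[ℝ] Lp ℝ 2 μ) = U.eqLocus (1 : Lp ℝ 2 μ →L[ℝ] Lp ℝ 2 μ) := by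
    ext f
    constructor
    · intro hf
      have hf' : W f = f := hf
      show U f = f
      conv_lhs => rw [← hf']
      exact hUW f
    · intro hf
      have hf' : U f = f := hf
      show W f = f
      conv_lhs => rw [← hf']
      exact hWU f
  have tU := U.tendsto_birkhoffAverage_orthogonalProjection hUn (hH.toLp H)
  have tW := W.tendsto_birkhoffAverage_orthogonalProjection hWn (hH.toLp H)
  have hproj : ((W.eqLocus (1 : Lp ℝ 2 μ →L[ℝ] Lp ℝ 2 μ)).orthogonalProjectionOnto (hH.toLp H) : Lp ℝ 2 μ) =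
      ((U.eqLocus (1 : Lp ℝ 2 μ →L[ℝ] Lp ℝ 2 μ)).orthogonalProjectionOnto (hH.toLp H) : Lp ℝ 2 μ) := by
    have key : ∀ (K K' : Submodule ℝ (Lp ℝ 2 μ)) [K.HasOrthogonalProjection] [K'.HasOrthogonalProjection],
        K = K' → (K.orthogonalProjectionOnto (hH.toLp H) : Lp ℝ 2 μ) =
          (K'.orthogonalProjectionOnto (hH.toLp H) : Lp ℝ 2 μ) := by
      rintro K K' _ _ rfl
      rfl
    exact key _ _ hloc
  rw [hproj] at tW
  set G : Lp ℝ 2 μ :=
    ((U.eqLocus (1 : Lp ℝ 2 μ →L[ℝ] Lp ℝ 2 μ)).orthogonalProjectionOnto (hH.toLp H) : Lp ℝ 2 μ) with hG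
  have hUav : ∀ n, (birkhoffAverage ℝ U id n (hH.toLp H) : Lp ℝ 2 μ) =ᵐ[μ]
      fun w => (n : ℝ)⁻¹ * ∑ j ∈ Finset.range n, H (T^[j] w) := fun n => VNA_av μ T hT H hH n
  have hWav : ∀ n, (birkhoffAverage ℝ W id n (hH.toLp H) : Lp ℝ 2 μ) =ᵐ[μ]
      fun w => (n : ℝ)⁻¹ * ∑ j ∈ Finset.range n, H (S^[j] w) := fun n => VNA_av μ S hS H hH n
  obtain ⟨ns1, hns1, hae1⟩ := (tendstoInMeasure_of_tendsto_Lp tU).exists_seq_tendsto_ae
  obtain ⟨ns2, hns2, hae2⟩ :=
    (tendstoInMeasure_of_tendsto_Lp (tW.comp hns1.tendsto_atTop)).exists_seq_tendsto_ae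
  refine ⟨fun w => G w, ns1 ∘ ns2, (Lp.stronglyMeasurable G).measurable, hns1.comp hns2, ?_, ?_, ?_⟩
  · have hall : ∀ᵐ w ∂μ, ∀ n, (birkhoffAverage ℝ U id n (hH.toLp H) : Lp ℝ 2 μ) w =
        (n : ℝ)⁻¹ * ∑ j ∈ Finset.range n, H (T^[j] w) := ae_all_iff.mpr hUav
    filter_upwards [hae1, hall] with w h1 h2
    have h3 := h1.comp hns2.tendsto_atTop
    refine h3.congr fun k => ?_
    exact h2 (ns1 (ns2 k))
  · have hall : ∀ᵐ w ∂μ, ∀ n, (birkhoffAverage ℝ W id n (hH.toLp H) : Lp ℝ 2 μ) w =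
        (n : ℝ)⁻¹ * ∑ j ∈ Finset.range n, H (S^[j] w) := ae_all_iff.mpr hWav
    filter_upwards [hae2, hall] with w h1 h2
    refine h1.congr fun k => ?_
    exact h2 (ns1 (ns2 k))
  · have h1 : ∀ n : ℕ, ∫ w, ((n : ℝ)⁻¹ * ∑ j ∈ Finset.range n, H (T^[j] w) - G w) ^ 2 ∂μ =
        ‖(birkhoffAverage ℝ U id n (hH.toLp H) : Lp ℝ 2 μ) - G‖ ^ 2 := by
      intro n
      rw [← real_inner_self_eq_norm_sq, L2.inner_def]
      refine integral_congr_ae ?_
      filter_upwards [Lp.coeFn_sub (birkhoffAverage ℝ U id n (hH.toLp H) : Lp ℝ 2 μ) G, hUav n] with w e1 e2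
      rw [e1, Pi.sub_apply, e2]
      simp [pow_two]
    simp only [h1]
    have h2 : Tendsto (fun n => ‖(birkhoffAverage ℝ U id n (hH.toLp H) : Lp ℝ 2 μ) - G‖) atTop (𝓝 0) :=
      tendsto_iff_norm_sub_tendsto_zero.mp tU
    have h3 := h2.pow 2
    simpa using h3

end

end Pool.Agent.VQE
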